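import Pool.Agent.H65.FF.L2

/-!
# The Turán problem for `K_5^4` in the codegree-squared norm

The largest sum of the squares of the codegrees (the numbers of edges containing a triple) in a
`K_5^4`-free 4-graph on `n` vertices is `(31/384 + o(1)) n^5`, and it is at most `(31/384) n^5` for
every `n`.  The extremal structure is Giraud's (the conjectured extremal structure for the number of
edges, density `11/16`).  This is the analogue for `K_5^4` of the theorem of Balogh, Clemen and
Lidicky on `K_4^3`.

Proof.  Let `p k` be the proportion of the ordered 5-tuples of vertices with exactly `k` non-edges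
(tuples with repeated vertices count as non-edges).  The sum of squares is
`(6 p 1 + 3 p 2 + p 3)/60`.  Two inequalities are used, each an equality for Giraud's structure:

* `65 p 1 ≤ 95 p 2 + 223 p 3 + 319 p 4 + 255 p 5`, from a sum of squares on seven vertices (types of
  five vertices), for `K_5^4`-free 4-graphs;
* `9 p 1 + 9 p 4 ≤ 23 p 2 + 23 p 3 + 55 p 5`, which says that in the links of the vertices at most
  `11/16` of the quadruples span an odd number of triples; it comes from a sum of squares on eight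
  vertices (types of six vertices) for arbitrary 3-graphs.
-/

set_option autoImplicit false

open Finset Filter Topology

namespace Pool.Agent.Results.MP_a4d830_co.CodegreeSquares

/-- no five vertices span all their 4-element subsets -/
def CliqueFree {n : ℕ} (G : Finset (Finset (Fin n))) : Prop :=
  ∀ S : Finset (Fin n), S.card = 5 → ∃ s ⊆ S, s.card = 4 ∧ s ∉ G

/-- the number of edges containing `P` -/
def codegree {n : ℕ} (G : Finset (Finset (Fin n))) (P : Finset (Fin n)) : ℕ := (G.filter (P ⊆ ·)).card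

/-- the sum of the squares of the codegrees of all triples of vertices -/
def squares {n : ℕ} (G : Finset (Finset (Fin n))) : ℕ :=
  ∑ P ∈ (univ : Finset (Fin n)).powersetCard 3, codegree G P ^ 2

/-- the largest sum of the squares of the codegrees in a `K_5^4`-free 4-graph on `n` vertices -/
noncomputable def exSquares (n : ℕ) : ℕ :=
  sSup {m : ℕ | ∃ G : Finset (Finset (Fin n)), (∀ s ∈ G, s.card = 4) ∧ CliqueFree G ∧ squares G = m}

theorem upper (n : ℕ) (G : Finset (Finset (Fin n))) (hG : ∀ s ∈ G, s.card = 4) (hK : CliqueFree G) :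
    384 * squares G ≤ 31 * n ^ 5 := Pool.Agent.H65.FF.upper n G hG hK

theorem nonempty_set (n : ℕ) :
    {m : ℕ | ∃ G : Finset (Finset (Fin n)), (∀ s ∈ G, s.card = 4) ∧ CliqueFree G ∧ squares G = m}.Nonempty := by
  refine ⟨_, ∅, fun s hs => absurd hs (notMem_empty _), fun S hS => ?_, rfl⟩
  obtain ⟨s, hs1, hs2⟩ := exists_subset_card_eq (s := S) (n := 4) (by omega)
  exact ⟨s, hs1, hs2, notMem_empty _⟩

theorem bdd (n : ℕ) :
    BddAbove {m : ℕ | ∃ G : Finset (Finset (Fin n)), (∀ s ∈ G, s.card = 4) ∧ CliqueFree G ∧ squares G = m} := by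
  refine ⟨31 * n ^ 5, ?_⟩
  rintro m ⟨G, hG, hK, rfl⟩
  have := upper n G hG hK
  omega

/-- (1) Every `K_5^4`-free 4-graph on `n` vertices has `∑ codegree(P)^2 ≤ (31/384) n^5`, the sum over all
triples `P`.  (2) The largest value of the sum is `(31/384 + o(1)) n^5`. -/
theorem result :
    (∀ (n : ℕ) (G : Finset (Finset (Fin n))), (∀ s ∈ G, s.card = 4) → CliqueFree G →
      (squares G : ℝ) ≤ 31 / 384 * (n : ℝ) ^ 5) ∧
    Tendsto (fun n : ℕ => (exSquares n : ℝ) / (n : ℝ) ^ 5) atTop (𝓝 (31 / 384)) := by
  have h1 : ∀ (n : ℕ) (G : Finset (Finset (Fin n))), (∀ s ∈ G, s.card = 4) → CliqueFree G →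
      (squares G : ℝ) ≤ 31 / 384 * (n : ℝ) ^ 5 := by
    intro n G hG hK
    have h := upper n G hG hK
    have h' : (384 : ℝ) * (squares G : ℝ) ≤ 31 * (n : ℝ) ^ 5 := by exact_mod_cast h
    linarith
  refine ⟨h1, ?_⟩
  rw [Metric.tendsto_atTop]
  intro ε hε
  obtain ⟨N, hN⟩ := Pool.Agent.N2.L2.goal_LOW (ε / 2) (by linarith)
  refine ⟨max N 1, fun n hn => ?_⟩
  have hnN : N ≤ n := le_trans (le_max_left _ _) hn
  have hn1 : 1 ≤ n := le_trans (le_max_right _ _) hn
  have hp : (0 : ℝ) < (n : ℝ) ^ 5 := by
    have : (0 : ℝ) < n := by exact_mod_cast hn1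
    positivity
  obtain ⟨G, hG, hK, hs⟩ := Nat.sSup_mem (nonempty_set n) (bdd n)
  have hs' : squares G = exSquares n := hs
  have hup : (exSquares n : ℝ) / (n : ℝ) ^ 5 ≤ 31 / 384 := by
    rw [div_le_iff₀ hp, ← hs']
    exact h1 n G hG hK
  obtain ⟨G', hG', hK', hb⟩ := hN n hnN
  have hle : squares G' ≤ exSquares n := le_csSup (bdd n) ⟨G', hG', hK', rfl⟩
  have hb' : (31 / 384 - ε / 2) * (n : ℝ) ^ 5 ≤ (squares G' : ℝ) := by
    refine hb.trans (le_of_eq ?_)
    unfold squares
    push_cast
    rfl
  have hlo : 31 / 384 - ε / 2 ≤ (exSquares n : ℝ) / (n : ℝ) ^ 5 := by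
    rw [le_div_iff₀ hp]
    exact hb'.trans (by exact_mod_cast hle)
  rw [Real.dist_eq, abs_lt]
  constructor <;> linarith

end Pool.Agent.Results.MP_a4d830_co.CodegreeSquares
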