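import Pool.Agent.H70.GR.VWK
import Pool.Agent.H70.GR.PSDK
import Pool.Agent.H70.GR.TELK
import Pool.Agent.H70.GR.KERK
import Pool.Agent.H70.GR.EXPK
import Pool.Agent.H70.GR.LIMK
import Pool.Agent.H70.GR.FREEK
import Pool.Agent.H70.GR.LAK
import Pool.Agent.H70.AL.UPK
import Pool.Agent.H70.AL.GramU

/-!
# Nearly extremal `K_r^k`-free hypergraphs: the degrees of the pairs of vertices form a Gram matrix of low dimension

Let `π = π(K_r^k)` be the Turán density of the complete `k`-graph on `r` vertices, `r ≥ k ≥ 2`; it is not known for any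
`r > k > 2`, and neither are the extremal hypergraphs. It is proved that all nearly extremal hypergraphs have the
following geometric structure: for every dimension `D` the vertices `x` can be represented by vectors `u(x)` in `ℝ^D` such
that the degree `d(x,y)` of the pair `x, y` (the fraction of the `(k-2)`-sets of vertices which complete `x, y` to an
edge) is

  `d(x,y) = π - ⟨u(x), u(y)⟩`   up to an error `π² / (4 D) + η` in mean square,

where `∑ |u(x)|² ≤ (π + η) N` and `|∑ u(x)|² ≤ η N²` (`N` vertices, `η → 0` for nearly extremal hypergraphs, `D`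
arbitrary), uniformly in `r`. So the matrix of the pair degrees is, up to a small error, a constant minus a positive
semidefinite matrix of trace at most `π N`, and it has complexity `O(1/ε)` at precision `ε`: a general matrix with entries
in `[0,1]` has infinite complexity in this sense (random-like matrices). The same is true, with the same constants, for
every class of `k`-graphs which is closed under preimages (blow-ups and induced subgraphs).

Proof. (1) `H` is nearly optimal under every choice of weights of the vertices, so `π - d` is nearly positive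
semidefinite and the degrees of the vertices are nearly equal. (2) For a symmetric function `φ` of the pairs of small cut
norm take `n` random vertices of `H` weighted by `∏ (1 + s φ(x_i, x_j))`; by the counting lemma only the factors of the
pairs in an edge matter, and since such a sample has at most `ex(n) ≤ π n^k / k!` edges, `∑ φ d` is small. With the weak
regularity lemma `d` is nearly a function of a bounded partition in mean square. (3) The step kernel `π - d'` has
nonnegative block degrees `d'` also on the diagonal, so its trace is at most `π`; as it is nearly positive semidefinite its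
eigenvalues are summable with sum at most `π` (this is where (2) is needed: without it the diagonal has no meaning), so the
part beyond the first `D` eigenvalues has square norm at most `π² / (4 D)`.

Parts of the formalisation are due to helper800, helper870, helper71, helper879, helper338, helper27, helper113, helper215
and helper996 (see `departures/helper70.md`); the case `k = 3` of step (2) is used in `MP_ec0960_co.StructuredCodegrees`.
-/

set_option autoImplicit false
open Finset Filter Topology

namespace Pool.Agent.Results.MP_a4d830_co.GramPairDegrees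

/-- `H` is a `k`-graph on `Fin n` without `r` vertices all of whose `k`-subsets are edges. -/
def Free (k r n : ℕ) (H : Finset (Finset (Fin n))) : Prop :=
  (∀ e ∈ H, e.card = k) ∧ ∀ S : Finset (Fin n), S.card = r → ∃ e ⊆ S, e.card = k ∧ e ∉ H

/-- The maximum number of edges of a hypergraph on `n` vertices which belongs to the class `P`. -/
noncomputable def ex (P : ∀ n : ℕ, Finset (Finset (Fin n)) → Prop) (n : ℕ) : ℕ :=
  sSup {m : ℕ | ∃ H : Finset (Finset (Fin n)), P n H ∧ H.card = m}

/-- The preimage of a `k`-graph under a map: the `k`-sets which are mapped onto an edge. -/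
def pull (k : ℕ) {n m : ℕ} (H : Finset (Finset (Fin n))) (φ : Fin m → Fin n) : Finset (Finset (Fin m)) :=
  ((univ : Finset (Fin m)).powersetCard k).filter fun e => e.image φ ∈ H

/-- `P` is a class of `k`-graphs which is closed under preimages. -/
def Closed (k : ℕ) (P : ∀ n : ℕ, Finset (Finset (Fin n)) → Prop) : Prop :=
  (∀ (n : ℕ) (H : Finset (Finset (Fin n))), P n H → ∀ e ∈ H, e.card = k) ∧
  ∀ (n m : ℕ) (φ : Fin m → Fin n) (H : Finset (Finset (Fin n))), P n H → P m (pull k H φ)

/-- The number of edges which contain `x` and `y`. -/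
def pairDeg {N : ℕ} (H : Finset (Finset (Fin N))) (x y : Fin N) : ℕ :=
  (H.filter fun e => x ∈ e ∧ y ∈ e).card

/-- In every dimension `D` there are vectors `u(x)` with `∑ |u(x)|² ≤ (a + η) N` and small sum such that the normalised
degrees of the pairs `x ≠ y` are `a - ⟨u(x), u(y)⟩`, up to `a² / (4 D) + η` in mean square. -/
def GramForm (k : ℕ) (a η : ℝ) {N : ℕ} (H : Finset (Finset (Fin N))) : Prop :=
  ∀ D : ℕ, 1 ≤ D → ∃ u : Fin N → Fin D → ℝ,
    ∑ x, ∑ i, u x i ^ 2 ≤ (a + η) * N ∧
    ∑ i, (∑ x, u x i) ^ 2 ≤ η * (N : ℝ) ^ 2 ∧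
    ∑ x, ∑ y ∈ univ.erase x,
      (((k - 2).factorial : ℝ) * pairDeg H x y / (N : ℝ) ^ (k - 2) - (a - ∑ i, u x i * u y i)) ^ 2
        ≤ (a ^ 2 / (4 * D) + η) * (N : ℝ) ^ 2

/-- The maximum densities of the `k`-graphs of the class `P` have a limit `a`, and all members of `P` on `N ≥ N₀` vertices
with at least `ex(N) - δ N^k` edges have pair degrees in Gram form. -/
def Structure (k : ℕ) (η δ : ℝ) (N₀ : ℕ) (P : ∀ n : ℕ, Finset (Finset (Fin n)) → Prop) : Prop :=
  ∃ a : ℝ, 0 ≤ a ∧ a ≤ 1 ∧ Tendsto (fun n : ℕ => (ex P n : ℝ) / (n.choose k : ℝ)) atTop (𝓝 a) ∧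
    ∀ N ≥ N₀, ∀ H : Finset (Finset (Fin N)), P N H → (ex P N : ℝ) ≤ H.card + δ * (N : ℝ) ^ k → GramForm k a η H

/-- **Theorem.** For all `k ≥ 2` and `η > 0` there are `δ > 0` and `N₀` such that for all `r ≥ k` all nearly extremal
`K_r^k`-free `k`-graphs have pair degrees in Gram form, and so have the nearly extremal members of all classes of
`k`-graphs closed under preimages. -/
theorem result : ∀ k : ℕ, 2 ≤ k → ∀ η : ℝ, 0 < η → ∃ δ : ℝ, 0 < δ ∧ ∃ N₀ : ℕ,
    (∀ r : ℕ, k ≤ r → Structure k η δ N₀ (Free k r)) ∧
    (∀ P : (∀ n : ℕ, Finset (Finset (Fin n)) → Prop), Closed k P → Structure k η δ N₀ P) := by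
  intro k hk η hη
  obtain ⟨δ, hδ, N₀, h⟩ := Pool.Agent.H70.AL.GramU.mainU Pool.Agent.H70.GR.TELK.telk Pool.Agent.H70.GR.VWK.vwk
    Pool.Agent.H70.GR.EXPK.expk Pool.Agent.H70.GR.PSDK.psdk Pool.Agent.H70.GR.LAK.lak Pool.Agent.H70.GR.KERK.kerk
    Pool.Agent.H70.GR.LIMK.limk Pool.Agent.H70.AL.UPK.upk hk hη
  have hall : ∀ P : (∀ n : ℕ, Finset (Finset (Fin n)) → Prop), Closed k P → Structure k η δ N₀ P := by
    intro P hP
    obtain ⟨a, ha0, ha1, hlim, -⟩ := Pool.Agent.H70.GR.LIMK.limk k (by omega) P ⟨hP.1, hP.2⟩
    exact ⟨a, ha0, ha1, hlim, h P ⟨hP.1, hP.2⟩ a hlim⟩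
  refine ⟨δ, hδ, N₀, fun r hr => hall _ ?_, hall⟩
  have hc := Pool.Agent.H70.GR.FREEK.freek k r hk hr
  exact ⟨hc.uni, hc.pull⟩

end Pool.Agent.Results.MP_a4d830_co.GramPairDegrees
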