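import Pool.Agent.H69.TP.Low
import Pool.Agent.H69.TP.Core
import Pool.Graph.R_pool_sql_team_seeded_63374d34.Results.MP_afdd4d_co.TamePairLinks

/-!
# The Turán density of `K_5^4` for 4-graphs whose pair-links omit two kinds of induced subgraphs

The conjecture `π(K_5^4) = 11/16` holds, for every `t ≥ 2`, within the family of the 4-graphs whose
pair-links contain no (or few) induced copies of `K_t ∪ tK_1` and of `K_{t,t} ∪ tK_1`.

Upper bound: such a `K_5^4`-free 4-graph is close to a cocycle (library, `TamePairLinks`), and a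
cocycle has at most `(11/384) n^4` members (library project `Y440`, assembled by helper65).
Lower bound: in the 4-graphs of de Caen, Kreher and Wiseman the pair-link of two vertices on the same
side is a complete multipartite graph, and that of two vertices on different sides has a vertex
partition into two cliques; hence no pair-link contains `K_2 ∪ 2K_1` or `K_{2,2} ∪ 2K_1`.
-/

set_option autoImplicit false

open Finset Filter Topology

namespace Pool.Agent.Results.MP_a4d830_co.TamePairLinkDensity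

/-- number of five-element sets of vertices all of whose four-element subsets are members of `H` -/
def fiveCliques {n : ℕ} (H : Finset (Finset (Fin n))) : ℕ :=
  ((powersetCard 5 (univ : Finset (Fin n))).filter (fun S => powersetCard 4 S ⊆ H)).card

/-- the vertices `φ j` form an induced copy of the graph `F` in the pair-link of `p` and `q`, that is, in
the graph on the vertices other than `p` and `q` in which `a` and `b` are adjacent when `{p, q, a, b}` is
a member of `H` -/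
def IsCopy {n : ℕ} (H : Finset (Finset (Fin n))) {J : Type} (F : SimpleGraph J) (p q : Fin n)
    (φ : J → Fin n) : Prop :=
  p ≠ q ∧ Function.Injective φ ∧ (∀ j, φ j ≠ p ∧ φ j ≠ q) ∧
    ∀ j k, j ≠ k → (F.Adj j k ↔ ({p, q, φ j, φ k} : Finset (Fin n)) ∈ H)

/-- number of (labelled) induced copies of the graph `F` in the pair-links of `H` -/
noncomputable def copies {n : ℕ} (H : Finset (Finset (Fin n))) {J : Type} (F : SimpleGraph J) : ℕ :=
  Nat.card {x : Fin n × Fin n × (J → Fin n) // IsCopy H F x.1 x.2.1 x.2.2}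

/-- `K_t ∪ tK_1`: a complete graph with `t` vertices and `t` isolated vertices -/
def cliqueAndPoints (t : ℕ) : SimpleGraph (Fin t ⊕ Fin t) :=
  (⊤ : SimpleGraph (Fin t)) ⊕g (⊥ : SimpleGraph (Fin t))

/-- `K_{t,t} ∪ tK_1`: a complete bipartite graph with parts of size `t` and `t` isolated vertices -/
def bicliqueAndPoints (t : ℕ) : SimpleGraph ((Fin t ⊕ Fin t) ⊕ Fin t) :=
  (completeBipartiteGraph (Fin t) (Fin t)) ⊕g (⊥ : SimpleGraph (Fin t))

/-- the largest number of edges of a `K_5^4`-free 4-graph on `n` vertices whose pair-links contain no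
induced copy of `K_t ∪ tK_1` and no induced copy of `K_{t,t} ∪ tK_1` -/
noncomputable def exTame (t n : ℕ) : ℕ :=
  sSup {m : ℕ | ∃ H : Finset (Finset (Fin n)), H ⊆ powersetCard 4 univ ∧ fiveCliques H = 0 ∧
    copies H (cliqueAndPoints t) = 0 ∧ copies H (bicliqueAndPoints t) = 0 ∧ H.card = m}

open Pool.Agent.H69.TP
open Pool.Agent.Y705.Q440.Lower (HM HM_even)
open Pool.Agent.Results.MP_afdd4d_co (TamePairLinks.result)

theorem copies_zero {n : ℕ} {H : Finset (Finset (Fin n))} {J : Type} {F : SimpleGraph J}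
    (h : ∀ p q φ, ¬ IsCopy H F p q φ) : copies H F = 0 := by
  unfold copies
  have : IsEmpty {x : Fin n × Fin n × (J → Fin n) // IsCopy H F x.1 x.2.1 x.2.2} :=
    ⟨fun x => h _ _ _ x.2⟩
  exact Nat.card_of_isEmpty

/-- the upper bound -/
theorem upper (t : ℕ) (ε : ℝ) (hε : 0 < ε) : ∃ δ : ℝ, 0 < δ ∧ ∃ N : ℕ, ∀ n : ℕ, N ≤ n →
    ∀ H : Finset (Finset (Fin n)), H ⊆ powersetCard 4 univ →
      (fiveCliques H : ℝ) ≤ δ * (n : ℝ) ^ 5 →
      (copies H (cliqueAndPoints t) : ℝ) ≤ δ * (n : ℝ) ^ (2 * t + 2) →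
      (copies H (bicliqueAndPoints t) : ℝ) ≤ δ * (n : ℝ) ^ (3 * t + 2) →
      (H.card : ℝ) ≤ (11 / 16 + ε) * (n.choose 4 : ℝ) := by
  obtain ⟨δ, hδ, n0, h0⟩ := Pool.Agent.Results.MP_afdd4d_co.TamePairLinks.result t (ε / 48) (by positivity)
  refine ⟨δ, hδ, max n0 (⌈(12 * (11 / 16 + ε)) / ε⌉₊ + 4), fun n hn H hH h1 h2 h3 => ?_⟩
  obtain ⟨C, hC, hd⟩ := h0 n ((le_max_left _ _).trans hn) H hH h1 h2 h3
  have hn4 : 4 ≤ n := by
    have := (le_max_right n0 (⌈(12 * (11 / 16 + ε)) / ε⌉₊ + 4)).trans hn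
    omega
  have hnε : (12 * (11 / 16 + ε)) / ε ≤ (n : ℝ) := by
    have a1 : ⌈(12 * (11 / 16 + ε)) / ε⌉₊ ≤ n := by
      have := (le_max_right n0 (⌈(12 * (11 / 16 + ε)) / ε⌉₊ + 4)).trans hn
      omega
    have a2 := Nat.le_ceil ((12 * (11 / 16 + ε)) / ε)
    have a3 : ((⌈(12 * (11 / 16 + ε)) / ε⌉₊ : ℕ) : ℝ) ≤ n := by exact_mod_cast a1
    linarith
  have hcard : 384 * C.card ≤ 11 * n ^ 4 :=
    Pool.Agent.Y705.Q440.tEven core n C hC.1 (fun P hP => hC.2 P hP)
  have hcardR : 384 * (C.card : ℝ) ≤ 11 * (n : ℝ) ^ 4 := by exact_mod_cast hcard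
  have hHC : (H.card : ℝ) ≤ C.card + (symmDiff H C).card := by
    have a1 : H ⊆ C ∪ symmDiff H C := by
      intro Q hQ
      by_cases hQC : Q ∈ C
      · exact mem_union_left _ hQC
      · exact mem_union_right _ (by rw [mem_symmDiff]; exact Or.inl ⟨hQ, hQC⟩)
    have a2 := (card_le_card a1).trans (card_union_le _ _)
    exact_mod_cast a2
  have hch : (n : ℝ) ^ 4 - 6 * (n : ℝ) ^ 3 ≤ 24 * (n.choose 4 : ℝ) := by
    rw [Pool.Agent.Y440.P.choose4]
    have hnR : (4 : ℝ) ≤ n := by exact_mod_cast hn4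
    nlinarith
  have hnε' : 12 * (11 / 16 + ε) ≤ n * ε := by
    rwa [div_le_iff₀ hε] at hnε
  have hn3 : 0 ≤ (n : ℝ) ^ 3 := by positivity
  have key : 12 * (11 / 16 + ε) * (n : ℝ) ^ 3 ≤ n * ε * (n : ℝ) ^ 3 := mul_le_mul_of_nonneg_right hnε' hn3
  have hε' : 0 ≤ 11 / 16 + ε := by linarith
  have hmul := mul_le_mul_of_nonneg_left hch hε'
  nlinarith

/-- a 4-graph of de Caen, Kreher and Wiseman has no `K_5^4` -/
theorem HM_five {n : ℕ} (A : Finset (Fin n)) (M : Fin n → Fin n → ZMod 2) : fiveCliques (HM A M) = 0 := by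
  unfold fiveCliques
  rw [card_eq_zero, filter_eq_empty_iff]
  intro S hS h
  have hS5 := (mem_powersetCard.1 hS).2
  have he := HM_even A M hS5
  unfold Pool.Agent.Y440.A.nin at he
  have h1 : (HM A M).filter (· ⊆ S) = powersetCard 4 S := by
    ext Q
    rw [mem_filter, mem_powersetCard]
    constructor
    · rintro ⟨a1, a2⟩
      have a3 : Q ∈ powersetCard 4 (univ : Finset (Fin n)) := filter_subset _ _ a1
      exact ⟨a2, (mem_powersetCard.1 a3).2⟩
    · rintro ⟨a1, a2⟩
      exact ⟨h (mem_powersetCard.2 ⟨a1, a2⟩), a1⟩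
  rw [h1, card_powersetCard, hS5] at he
  exact absurd he (by decide)

theorem HM_clique {n : ℕ} (A : Finset (Fin n)) (M : Fin n → Fin n → ZMod 2) (t : ℕ) (ht : 2 ≤ t) :
    copies (HM A M) (cliqueAndPoints t) = 0 := by
  refine copies_zero fun p q φ h => ?_
  obtain ⟨hpq, hinj, hav, hadj⟩ := h
  let i0 : Fin t := ⟨0, by omega⟩
  let i1 : Fin t := ⟨1, by omega⟩
  have h01 : i0 ≠ i1 := by simp [i0, i1, Fin.ext_iff]
  refine no_pattern A M hpq (x := φ (Sum.inl i0)) (y := φ (Sum.inl i1)) (z := φ (Sum.inr i0))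
    (w := φ (Sum.inr i1)) ?_ ?_ ?_ ?_ ?_ ?_ ?_ ?_ ?_ ?_ ?_ ?_
  · intro v hv
    simp only [List.mem_cons, List.not_mem_nil, or_false] at hv
    rcases hv with rfl | rfl | rfl | rfl <;> exact (hav _).1.symm
  · intro v hv
    simp only [List.mem_cons, List.not_mem_nil, or_false] at hv
    rcases hv with rfl | rfl | rfl | rfl <;> exact (hav _).2.symm
  · exact fun h => h01 (Sum.inl_injective (hinj h))
  · exact fun h => Sum.inl_ne_inr (hinj h)
  · exact fun h => Sum.inl_ne_inr (hinj h)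
  · exact fun h => Sum.inl_ne_inr (hinj h)
  · exact fun h => h01 (Sum.inr_injective (hinj h))
  · exact (hadj _ _ (fun h => h01 (Sum.inl_injective h))).1 (by simp [cliqueAndPoints, h01])
  · exact fun h => by simpa [cliqueAndPoints] using (hadj (Sum.inl i0) (Sum.inr i0) (by simp)).2 h
  · exact fun h => by simpa [cliqueAndPoints] using (hadj (Sum.inl i1) (Sum.inr i0) (by simp)).2 h
  · exact fun h => by simpa [cliqueAndPoints] using (hadj (Sum.inl i0) (Sum.inr i1) (by simp)).2 h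
  · exact fun h => by simpa [cliqueAndPoints] using
      (hadj (Sum.inr i0) (Sum.inr i1) (fun h => h01 (Sum.inr_injective h))).2 h

theorem HM_biclique {n : ℕ} (A : Finset (Fin n)) (M : Fin n → Fin n → ZMod 2) (t : ℕ) (ht : 2 ≤ t) :
    copies (HM A M) (bicliqueAndPoints t) = 0 := by
  refine copies_zero fun p q φ h => ?_
  obtain ⟨hpq, hinj, hav, hadj⟩ := h
  let i0 : Fin t := ⟨0, by omega⟩
  let i1 : Fin t := ⟨1, by omega⟩
  have h01 : i0 ≠ i1 := by simp [i0, i1, Fin.ext_iff]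
  refine no_pattern A M hpq (x := φ (Sum.inl (Sum.inl i0))) (y := φ (Sum.inl (Sum.inr i0)))
    (z := φ (Sum.inr i0)) (w := φ (Sum.inr i1)) ?_ ?_ ?_ ?_ ?_ ?_ ?_ ?_ ?_ ?_ ?_ ?_
  · intro v hv
    simp only [List.mem_cons, List.not_mem_nil, or_false] at hv
    rcases hv with rfl | rfl | rfl | rfl <;> exact (hav _).1.symm
  · intro v hv
    simp only [List.mem_cons, List.not_mem_nil, or_false] at hv
    rcases hv with rfl | rfl | rfl | rfl <;> exact (hav _).2.symm
  · exact fun h => Sum.inl_ne_inr (Sum.inl_injective (hinj h))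
  · exact fun h => Sum.inl_ne_inr (hinj h)
  · exact fun h => Sum.inl_ne_inr (hinj h)
  · exact fun h => Sum.inl_ne_inr (hinj h)
  · exact fun h => h01 (Sum.inr_injective (hinj h))
  · exact (hadj _ _ (fun h => Sum.inl_ne_inr (Sum.inl_injective h))).1 (by simp [bicliqueAndPoints])
  · exact fun h => by
      simpa [bicliqueAndPoints] using (hadj (Sum.inl (Sum.inl i0)) (Sum.inr i0) (by simp)).2 h
  · exact fun h => by
      simpa [bicliqueAndPoints] using (hadj (Sum.inl (Sum.inr i0)) (Sum.inr i0) (by simp)).2 h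
  · exact fun h => by
      simpa [bicliqueAndPoints] using (hadj (Sum.inl (Sum.inl i0)) (Sum.inr i1) (by simp)).2 h
  · exact fun h => by simpa [bicliqueAndPoints] using
      (hadj (Sum.inr i0) (Sum.inr i1) (fun h => h01 (Sum.inr_injective h))).2 h

theorem bdd (t n : ℕ) : BddAbove {m : ℕ | ∃ H : Finset (Finset (Fin n)), H ⊆ powersetCard 4 univ ∧
    fiveCliques H = 0 ∧ copies H (cliqueAndPoints t) = 0 ∧ copies H (bicliqueAndPoints t) = 0 ∧
    H.card = m} := by
  refine ⟨n.choose 4, ?_⟩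
  rintro m ⟨H, hH, _, _, _, rfl⟩
  have := card_le_card hH
  rwa [card_powersetCard, card_univ, Fintype.card_fin] at this

/-- **Theorem.** (1) For every `t` and `ε > 0` there are `δ > 0` and `N` such that every 4-graph on
`n ≥ N` vertices with at most `δ n^5` copies of `K_5^4` and at most `δ n^(2t+2)` and `δ n^(3t+2)` induced
copies of `K_t ∪ tK_1` and of `K_{t,t} ∪ tK_1` in its pair-links has at most `(11/16 + ε) C(n,4)` edges.
(2) For every `t ≥ 2` the largest number `exTame t n` of edges of a `K_5^4`-free 4-graph on `n` vertices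
whose pair-links contain no induced copy of these two graphs is `(11/16 + o(1)) C(n,4)`. -/
theorem result (t : ℕ) :
    (∀ ε : ℝ, 0 < ε → ∃ δ : ℝ, 0 < δ ∧ ∃ N : ℕ, ∀ n : ℕ, N ≤ n →
      ∀ H : Finset (Finset (Fin n)), H ⊆ powersetCard 4 univ →
        (fiveCliques H : ℝ) ≤ δ * (n : ℝ) ^ 5 →
        (copies H (cliqueAndPoints t) : ℝ) ≤ δ * (n : ℝ) ^ (2 * t + 2) →
        (copies H (bicliqueAndPoints t) : ℝ) ≤ δ * (n : ℝ) ^ (3 * t + 2) →
        (H.card : ℝ) ≤ (11 / 16 + ε) * (n.choose 4 : ℝ)) ∧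
    (2 ≤ t → Tendsto (fun n : ℕ => (exTame t n : ℝ) / (n.choose 4 : ℝ)) atTop (𝓝 (11 / 16))) := by
  refine ⟨upper t, fun ht => ?_⟩
  have hlo : ∀ ε : ℝ, 0 < ε → ∃ N : ℕ, ∀ n : ℕ, N ≤ n → 11 / 16 - ε ≤ (exTame t n : ℝ) / (n.choose 4 : ℝ) := by
    intro ε hε
    obtain ⟨N, hN⟩ := exists_HM ε hε
    refine ⟨max N 4, fun n hn => ?_⟩
    obtain ⟨A, M, hb⟩ := hN n ((le_max_left _ _).trans hn)
    have hle : (HM A M).card ≤ exTame t n :=
      le_csSup (bdd t n) ⟨HM A M, filter_subset _ _, HM_five A M, HM_clique A M t ht,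
        HM_biclique A M t ht, rfl⟩
    have hp4 : (0 : ℝ) < (n.choose 4 : ℝ) := by
      exact_mod_cast Nat.choose_pos ((le_max_right _ _).trans hn)
    rw [le_div_iff₀ hp4]
    exact hb.trans (by exact_mod_cast hle)
  have hup : ∀ ε : ℝ, 0 < ε → ∃ N : ℕ, ∀ n : ℕ, N ≤ n → (exTame t n : ℝ) / (n.choose 4 : ℝ) ≤ 11 / 16 + ε := by
    intro ε hε
    obtain ⟨δ, hδ, N, hN⟩ := upper t ε hε
    refine ⟨max N 4, fun n hn => ?_⟩
    have hne : {m : ℕ | ∃ H : Finset (Finset (Fin n)), H ⊆ powersetCard 4 univ ∧ fiveCliques H = 0 ∧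
        copies H (cliqueAndPoints t) = 0 ∧ copies H (bicliqueAndPoints t) = 0 ∧ H.card = m}.Nonempty :=
      ⟨_, HM ∅ 0, filter_subset _ _, HM_five ∅ 0, HM_clique ∅ 0 t ht, HM_biclique ∅ 0 t ht, rfl⟩
    obtain ⟨H, hH, a5, a1, a2, hm⟩ := Nat.sSup_mem hne (bdd t n)
    have hm' : H.card = exTame t n := hm
    have h := hN n ((le_max_left _ _).trans hn) H hH (by rw [a5]; push_cast; positivity)
      (by rw [a1]; push_cast; positivity) (by rw [a2]; push_cast; positivity)
    rw [hm'] at h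
    have hp4 : (0 : ℝ) < (n.choose 4 : ℝ) := by
      exact_mod_cast Nat.choose_pos ((le_max_right _ _).trans hn)
    rwa [div_le_iff₀ hp4]
  rw [Metric.tendsto_atTop]
  intro ε hε
  obtain ⟨N1, h1⟩ := hlo (ε / 2) (by positivity)
  obtain ⟨N2, h2⟩ := hup (ε / 2) (by positivity)
  refine ⟨max N1 N2, fun n hn => ?_⟩
  have b1 := h1 n ((le_max_left _ _).trans hn)
  have b2 := h2 n ((le_max_right _ _).trans hn)
  rw [Real.dist_eq, abs_lt]
  constructor <;> linarith

end Pool.Agent.Results.MP_a4d830_co.TamePairLinkDensity
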