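import Pool.Agent.H65.FF.K54
import Pool.Graph.R_seed8.H120R2.CliqueDefs

/-!
# `π(K_5^4) ≤ 0.690621`

The notions are those of `Pool.Agent.H120R2.CliqueDefs`: `ex n k m = ex(n, K_m^k)` and
`turanDensity k m = π(K_m^k)`.

Outline.  Let `T` be the 4-graph of the non-edges of a `K_5^4`-free 4-graph (every five vertices contain a
member of `T`).  A sum of squares on seven vertices (squares of linear forms in the extensions of five
vertices) is combined with one inequality for the links: in every 3-graph at most `11/16` of the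
quadruples span an odd number of triples (the value of Giraud's structure, from a sum of squares on eight
vertices).  The conjectured value is `π(K_5^4) = 11/16 = 0.6875`.
-/

set_option autoImplicit false

open Finset Filter Topology

namespace Pool.Agent.Results.MP_a4d830_co.TuranDensityK54

open Pool.Agent.H120R2.Clique

theorem bound {n : ℕ} (hn : 0 < n) (G : Finset (Finset (Fin n))) (hG : ∀ A ∈ G, A.card = 4)
    (hK : ¬ HasClique G 4 5) : (G.card : ℝ) ≤ 1174744664 / 1701000000 * ((n : ℝ) ^ 4 / 24) := by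
  have hK' : ∀ P : Finset (Fin n), P.card = 5 → ∃ Q ∈ powersetCard 4 P, Q ∉ G := by
    intro P hP
    by_contra hcon
    push Not at hcon
    exact hK ⟨P, hP, hcon⟩
  have h := Pool.Agent.H65.FF.card_bound G hG hK' (by rw [Fintype.card_fin]; exact hn)
  rw [Fintype.card_fin] at h
  have h' : (1701000000 : ℝ) * (24 * (G.card : ℝ)) ≤ 1174744664 * (n : ℝ) ^ 4 := by exact_mod_cast h
  linarith

theorem ex_bound {n : ℕ} (hn : 0 < n) :
    (ex n 4 5 : ℝ) ≤ 1174744664 / 1701000000 * ((n : ℝ) ^ 4 / 24) := by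
  classical
  have key : ex n 4 5 ≤ ⌊(1174744664 / 1701000000 * ((n : ℝ) ^ 4 / 24) : ℝ)⌋₊ := by
    unfold ex
    refine Finset.sup_le fun G hG => ?_
    rw [mem_filter, mem_powerset] at hG
    exact Nat.le_floor (bound hn G (fun A hA => (mem_powersetCard.mp (hG.1 hA)).2) hG.2)
  have h2 : (0 : ℝ) ≤ 1174744664 / 1701000000 * ((n : ℝ) ^ 4 / 24) := by positivity
  exact le_trans (by exact_mod_cast key) (Nat.floor_le h2)

/-- `n^4/24` against `C(n,4)` -/
theorem choose_bound {n : ℕ} (hn : 12000000 ≤ n) :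
    (n : ℝ) ^ 4 / 24 ≤ 690621 / 690620.5 * (n.choose 4 : ℝ) := by
  have hc : (n.choose 4 : ℝ) * 24 = (n : ℝ) * (n - 1) * (n - 2) * (n - 3) := by
    have h1 := Nat.descFactorial_eq_factorial_mul_choose n 4
    have h2 : (n.descFactorial 4 : ℝ) = (n : ℝ) * (n - 1) * (n - 2) * (n - 3) := by
      have hn3 : 3 ≤ n := by omega
      simp only [Nat.descFactorial_succ, Nat.descFactorial_zero, Nat.sub_zero]
      push_cast [Nat.cast_sub (show 3 ≤ n by omega), Nat.cast_sub (show 2 ≤ n by omega),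
        Nat.cast_sub (show 1 ≤ n by omega)]
      ring
    have h4 : Nat.factorial 4 = 24 := rfl
    rw [h4] at h1
    rw [← h2, h1]
    push_cast
    ring
  have hN : (12000000 : ℝ) ≤ n := by exact_mod_cast hn
  have hc' : (n.choose 4 : ℝ) = (n : ℝ) * (n - 1) * (n - 2) * (n - 3) / 24 := by linarith
  rw [hc']
  nlinarith [mul_nonneg (mul_nonneg (sub_nonneg.mpr hN) (sq_nonneg (n : ℝ))) (by positivity : (0:ℝ) ≤ 1),
    sq_nonneg (n : ℝ), mul_nonneg (sq_nonneg (n : ℝ)) (sub_nonneg.mpr hN),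
    mul_nonneg (mul_nonneg (sq_nonneg (n : ℝ)) (by positivity : (0:ℝ) ≤ (n:ℝ))) (sub_nonneg.mpr hN)]

/-- (1) `ex(n, K_5^4) ≤ 0.690621 n^4/24` for every `n`;  (2) `π(K_5^4) ≤ 0.690621`, where `π(K_5^4)` is
the limit of `ex(n, K_5^4) / C(n,4)`. -/
theorem result :
    (∀ n : ℕ, (ex n 4 5 : ℝ) ≤ 0.690621 * ((n : ℝ) ^ 4 / 24)) ∧
    Tendsto (fun n : ℕ => (ex n 4 5 : ℝ) / (n.choose 4 : ℝ)) atTop (𝓝 (turanDensity 4 5)) ∧
    turanDensity 4 5 ≤ 0.690621 := by
  refine ⟨fun n => ?_, ratio_tendsto 4 5, ?_⟩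
  · rcases Nat.eq_zero_or_pos n with rfl | hn
    · have h0 : ex 0 4 5 = 0 := by
        unfold ex
        have : (univ : Finset (Fin 0)).powersetCard 4 = ∅ := by
          apply powersetCard_eq_empty.mpr
          simp
        rw [this]
        simp
      rw [h0]
      norm_num
    · have h := ex_bound hn
      have h2 : (0 : ℝ) ≤ (n : ℝ) ^ 4 / 24 := by positivity
      have : (1174744664 / 1701000000 : ℝ) ≤ 0.690621 := by norm_num
      nlinarith
  · refine le_of_tendsto (ratio_tendsto 4 5) ?_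
    rw [eventually_atTop]
    refine ⟨12000000, fun n hn => ?_⟩
    have hp : (0 : ℝ) < (n.choose 4 : ℝ) := by exact_mod_cast Nat.choose_pos (by omega)
    rw [div_le_iff₀ hp]
    have h := ex_bound (n := n) (by omega)
    have h2 := choose_bound hn
    have h3 : (1174744664 / 1701000000 : ℝ) * ((n : ℝ) ^ 4 / 24) ≤
        1174744664 / 1701000000 * (690621 / 690620.5 * (n.choose 4 : ℝ)) :=
      mul_le_mul_of_nonneg_left h2 (by norm_num)
    have h4 : (1174744664 / 1701000000 * (690621 / 690620.5) : ℝ) ≤ 0.690621 := by norm_num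
    calc (ex n 4 5 : ℝ) ≤ 1174744664 / 1701000000 * (690621 / 690620.5 * (n.choose 4 : ℝ)) := h.trans h3
      _ = (1174744664 / 1701000000 * (690621 / 690620.5)) * (n.choose 4 : ℝ) := by ring
      _ ≤ 0.690621 * (n.choose 4 : ℝ) := mul_le_mul_of_nonneg_right h4 hp.le

end Pool.Agent.Results.MP_a4d830_co.TuranDensityK54
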